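import Mathlib
import Pool.Agent.Y674.TR.Stm

/-!
# The data of multiplication by three
-/

set_option autoImplicit false

namespace Pool.Agent.Y288.TR

open Polynomial Pool.Agent.Y674.TR

theorem phi_eq (A B : ℤ) : φ3 A B = X ^ 9 + C (-12 * A) * X ^ 7 + C (-96 * B) * X ^ 6 +
    C (30 * A ^ 2) * X ^ 5 + C (-24 * A * B) * X ^ 4 + C (36 * A ^ 3 + 48 * B ^ 2) * X ^ 3 +
    C (48 * A ^ 2 * B) * X ^ 2 + C (9 * A ^ 4 + 96 * A * B ^ 2) * X +
    C (8 * A ^ 3 * B + 64 * B ^ 3) := by
  unfold φ3 ψ3 f3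
  simp only [map_add, map_mul, map_pow, map_neg, map_ofNat]
  ring

theorem phi_deg (A B : ℤ) : (φ3 A B).natDegree = 9 := by
  rw [phi_eq]
  compute_degree!

theorem phi_mon (A B : ℤ) : (φ3 A B).Monic := by
  rw [phi_eq]
  monicity!

theorem psi_deg (A B : ℤ) : (ψ3 A B).natDegree = 4 := by
  unfold ψ3
  compute_degree!

theorem bounds {A B M : ℤ} (hA : |A| ≤ M) (hB : |B| ≤ M) (hM : 1 ≤ M) (i j : ℕ)
    (hij : i + j ≤ 4) : -M ^ 4 ≤ A ^ i * B ^ j ∧ A ^ i * B ^ j ≤ M ^ 4 := by
  have h1 : |A ^ i * B ^ j| ≤ M ^ 4 := by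
    rw [abs_mul, abs_pow, abs_pow]
    calc |A| ^ i * |B| ^ j ≤ M ^ i * M ^ j := by
          have := abs_nonneg A
          have := abs_nonneg B
          gcongr
      _ = M ^ (i + j) := (pow_add M i j).symm
      _ ≤ M ^ 4 := pow_le_pow_right₀ hM hij
  exact abs_le.1 h1

theorem dat3 : DAT3 := by
  intro A B hAB
  set M : ℤ := max |A| |B| with hMdef
  have hA : |A| ≤ M := le_max_left _ _
  have hB : |B| ≤ M := le_max_right _ _
  have hM : 1 ≤ M := by
    by_contra h
    have h1 : M ≤ 0 := by omega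
    have h2 : |A| = 0 := le_antisymm (hA.trans h1) (abs_nonneg _)
    have h3 : |B| = 0 := le_antisymm (hB.trans h1) (abs_nonneg _)
    rw [abs_eq_zero] at h2 h3
    apply hAB
    rw [h2, h3]
    norm_num
  have hMn : ((M.natAbs : ℕ) : ℤ) = M := Int.natAbs_of_nonneg (by omega)
  have hcast : ((1000 * M.natAbs ^ 4 : ℕ) : ℤ) = 1000 * M ^ 4 := by
    push_cast
    rw [← hMn]
    simp
  have b00 := bounds hA hB hM 0 0 (by norm_num)
  have b10 := bounds hA hB hM 1 0 (by norm_num)
  have b01 := bounds hA hB hM 0 1 (by norm_num)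
  have b20 := bounds hA hB hM 2 0 (by norm_num)
  have b11 := bounds hA hB hM 1 1 (by norm_num)
  have b30 := bounds hA hB hM 3 0 (by norm_num)
  have b02 := bounds hA hB hM 0 2 (by norm_num)
  have b21 := bounds hA hB hM 2 1 (by norm_num)
  have b40 := bounds hA hB hM 4 0 (by norm_num)
  have b12 := bounds hA hB hM 1 2 (by norm_num)
  have b31 := bounds hA hB hM 3 1 (by norm_num)
  have b03 := bounds hA hB hM 0 3 (by norm_num)
  simp only [pow_zero, pow_one, one_mul, mul_one] at b00 b10 b01 b20 b11 b30 b02 b21 b40 b12 b31 b03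
  -- over the rationals
  set a : ℚ := (A : ℚ) with ha
  set b : ℚ := (B : ℚ) with hb
  have hD : 4 * a ^ 3 + 27 * b ^ 2 ≠ 0 := by
    intro h
    apply hAB
    have : ((4 * A ^ 3 + 27 * B ^ 2 : ℤ) : ℚ) = 0 := by
      push_cast
      exact h
    exact_mod_cast this
  set f : ℚ[X] := X ^ 3 + C a * X + C b with hf
  set f' : ℚ[X] := C 3 * X ^ 2 + C a with hf'
  set P : ℚ[X] := (ψ3 A B).map (Int.castRingHom ℚ) with hP
  have hP1 : P = C 3 * X ^ 4 + C (6 * a) * X ^ 2 + C (12 * b) * X - C (a ^ 2) := by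
    rw [hP]
    unfold ψ3
    simp only [Polynomial.map_sub, Polynomial.map_add, Polynomial.map_mul, Polynomial.map_pow,
      Polynomial.map_X, Polynomial.map_C]
    have e3 : (Int.castRingHom ℚ) 3 = 3 := by simp
    have e6 : (Int.castRingHom ℚ) (6 * A) = 6 * a := by simp [ha]
    have e12 : (Int.castRingHom ℚ) (12 * B) = 12 * b := by simp [hb]
    have eA : (Int.castRingHom ℚ) (A ^ 2) = a ^ 2 := by simp [ha]
    rw [e3, e6, e12, eA]
  have hP2 : P = -(f' ^ 2) + f * (C 12 * X) := by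
    rw [hP1, hf, hf']
    simp only [map_mul, map_pow, map_ofNat]
    ring
  have hcop : IsCoprime f f' := by
    refine ⟨C (1 / (4 * a ^ 3 + 27 * b ^ 2)) * (-(C (18 * a) * X) + C (27 * b)),
      C (1 / (4 * a ^ 3 + 27 * b ^ 2)) * (C (6 * a) * X ^ 2 - C (9 * b) * X + C (4 * a ^ 2)), ?_⟩
    have h1 : (-(C (18 * a) * X) + C (27 * b)) * f +
        (C (6 * a) * X ^ 2 - C (9 * b) * X + C (4 * a ^ 2)) * f' =
        C (4 * a ^ 3 + 27 * b ^ 2) := by
      rw [hf, hf']
      simp only [map_add, map_mul, map_pow, map_ofNat]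
      ring
    have h2 : (C (1 / (4 * a ^ 3 + 27 * b ^ 2)) : ℚ[X]) * C (4 * a ^ 3 + 27 * b ^ 2) = 1 := by
      rw [← map_mul, one_div, inv_mul_cancel₀ hD, map_one]
    rw [mul_assoc, mul_assoc, ← mul_add, h1, h2]
  have hfP : IsCoprime f P := by
    rw [hP2]
    exact (hcop.pow_right (n := 2)).neg_right.add_mul_left_right _
  have h12 : IsUnit (C 12 : ℚ[X]) := isUnit_C.2 (by norm_num)
  have h64 : IsUnit (C 64 : ℚ[X]) := isUnit_C.2 (by norm_num)
  have hder : derivative P = C 12 * f := by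
    rw [hP1, hf]
    simp only [derivative_sub, derivative_add, derivative_C_mul, derivative_X_pow, derivative_X,
      derivative_C, map_mul, map_ofNat, Nat.cast_ofNat]
    norm_num
    have h4 : (C 4 : ℚ[X]) = 4 := map_ofNat C 4
    have h2 : (C 2 : ℚ[X]) = 2 := map_ofNat C 2
    rw [h4, h2]
    ring
  have hphi : (φ3 A B).map (Int.castRingHom ℚ) = C 64 * f ^ 3 + P * (X * P - C 8 * f * f') := by
    have eA : (Int.castRingHom ℚ) A = a := by simp [ha]
    have eB : (Int.castRingHom ℚ) B = b := by simp [hb]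
    have e3 : (Int.castRingHom ℚ) 3 = 3 := by simp
    have e8 : (Int.castRingHom ℚ) 8 = 8 := by simp
    have e64 : (Int.castRingHom ℚ) 64 = 64 := by simp
    have e1 : (f3 A B).map (Int.castRingHom ℚ) = f := by
      rw [hf]
      unfold f3
      simp only [Polynomial.map_add, Polynomial.map_mul, Polynomial.map_pow,
        Polynomial.map_X, Polynomial.map_C]
      rw [eA, eB]
    obtain ⟨G, hG⟩ : ∃ G : ℤ[X], G = C 3 * X ^ 2 + C A := ⟨_, rfl⟩
    have e2 : G.map (Int.castRingHom ℚ) = f' := by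
      rw [hf', hG]
      simp only [Polynomial.map_add, Polynomial.map_mul, Polynomial.map_pow,
        Polynomial.map_X, Polynomial.map_C]
      rw [eA, e3]
    unfold φ3
    rw [← hG]
    simp only [Polynomial.map_add, Polynomial.map_sub, Polynomial.map_mul, Polynomial.map_pow,
      Polynomial.map_X, Polynomial.map_C]
    rw [e1, e2, ← hP, e8, e64]
    ring
  refine ⟨?_, phi_mon A B, phi_deg A B, psi_deg A B, ?_, ?_, ?_, ?_⟩
  · have h1 : 1 ≤ M.natAbs := by omega
    have h2 : 1 ≤ M.natAbs ^ 4 := Nat.one_le_pow _ _ h1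
    omega
  · intro i
    rw [hcast]
    rcases lt_or_ge i 10 with hi | hi
    · rw [phi_eq, abs_le]
      simp only [coeff_add, coeff_C_mul, coeff_X_pow, coeff_X, coeff_C]
      interval_cases i <;> norm_num <;> first | positivity | (constructor <;> linarith)
    · rw [coeff_eq_zero_of_natDegree_lt (by rw [phi_deg]; omega), abs_zero]
      positivity
  · intro i
    rw [hcast]
    rcases lt_or_ge i 5 with hi | hi
    · unfold ψ3
      rw [abs_le]
      simp only [coeff_add, coeff_sub, coeff_C_mul, coeff_X_pow, coeff_X, coeff_C]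
      interval_cases i <;> norm_num <;> first | positivity | (constructor <;> linarith)
    · rw [coeff_eq_zero_of_natDegree_lt (by rw [psi_deg]; omega), abs_zero]
      positivity
  · change IsCoprime P (derivative P)
    rw [hder]
    exact (isCoprime_mul_unit_left_right h12 _ _).2 hfP.symm
  · rw [← hP, hphi]
    exact ((isCoprime_mul_unit_left_left h64 _ _).2 (hfP.pow_left (m := 3))).add_mul_left_left _

end Pool.Agent.Y288.TR
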